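import Pool.Agent.Results.MP_95030e_al.FinitePermutations
import Pool.Agent.H13.SF.Gr

set_option autoImplicit false

open Filter Topology

noncomputable section

namespace Pool.Agent.Results.MP_95030e_al.FiniteGroups

/-- The kernel of right multiplication by the matrix `A` on `ℓ²(G)^m`. -/
def kernel {G : Type} [Group G] {m n : ℕ} (A : Matrix (Fin m) (Fin n) (G →₀ ℂ)) :
    Set (lp (fun _ : Fin m × G => ℂ) 2) :=
  {x | ∀ (j : Fin n) (g : G),
    ∑ i : Fin m, (A i j).sum (fun h c => x (i, g * h⁻¹) * c) = 0}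

open Classical in
/-- The von Neumann dimension of this kernel: the sum over `i` of one minus the squared distance
from the basis vector at `(i, 1)` to the kernel, that is, the trace of the projection onto the
kernel. -/
def kerDim {G : Type} [Group G] {m n : ℕ} (A : Matrix (Fin m) (Fin n) (G →₀ ℂ)) : ℝ :=
  ∑ i : Fin m, (1 - (Metric.infDist
    (lp.single 2 (i, (1 : G)) (1 : ℂ) : lp (fun _ : Fin m × G => ℂ) 2) (kernel A)) ^ 2)

/-- `G` is torsion-free. -/
def TorsionFree (G : Type) [Group G] : Prop := ∀ g : G, ∀ n : ℕ, 0 < n → g ^ n = 1 → g = 1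

/-- A rational matrix as a complex matrix. -/
def complex {G : Type} {m n : ℕ} (A : Matrix (Fin m) (Fin n) (G →₀ ℚ)) :
    Matrix (Fin m) (Fin n) (G →₀ ℂ) :=
  fun i j => (A i j).mapRange (fun q : ℚ => (q : ℂ)) Rat.cast_zero

/-- `𝒬` is a class of finite groups which is closed under direct products. -/
structure ProductClosed (𝒬 : (Q : Type) → [Group Q] → Prop) : Prop where
  finite : ∀ (Q : Type) [Group Q], 𝒬 Q → Finite Q
  product : ∀ (Q Q' : Type) [Group Q] [Group Q'], 𝒬 Q → 𝒬 Q' → 𝒬 (Q × Q')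

/-- `G` is locally embeddable into the class `𝒬`: for every finite subset `A` of `G` there is a map
from `G` to a group in `𝒬` which is injective and multiplicative on `A`. -/
def LocallyEmbeddable (𝒬 : (Q : Type) → [Group Q] → Prop) (G : Type) [Group G] : Prop :=
  ∀ A : Finset G, ∃ (Q : Type) (_ : Group Q), 𝒬 Q ∧ ∃ φ : G → Q, Set.InjOn φ A ∧
    ∀ a ∈ A, ∀ b ∈ A, φ (a * b) = φ a * φ b

/-- `G` is residually in the class `𝒬`. -/
def Residually (𝒬 : (Q : Type) → [Group Q] → Prop) (G : Type) [Group G] : Prop :=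
  ∀ g : G, g ≠ 1 → ∃ (Q : Type) (_ : Group Q), 𝒬 Q ∧ ∃ φ : G →* Q, φ g ≠ 1

/-- The finite group `Q` has at least `j` elements, and for its elements `q₁, …, q_k`: if the words
`w` and `w ^ p`, `p > 0`, have length at most `j` and `w ^ p = 1` in `Q` then `w = 1` in `Q`. -/
def NoShortTorsion (j : ℕ) {k : ℕ} {Q : Type} [Group Q] (q : Fin k → Q) : Prop :=
  j ≤ Nat.card Q ∧ ∀ (w : FreeGroup (Fin k)) (p : ℕ), 0 < p → w.norm ≤ j → (w ^ p).norm ≤ j →
    FreeGroup.lift q (w ^ p) = 1 → FreeGroup.lift q w = 1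

/-- The kernel of the matrix `A` over the group ring of `Q`: the real vectors `v` on `Q × Fin m`
with `∑ i, ∑ w, (A i j) w * v (w x, i) = 0` for all `x` in `Q` and all columns `j`, where the words
`w` are evaluated at the elements `q₁, …, q_k`. -/
def solutions {k m n : ℕ} {Q : Type} [Group Q] (q : Fin k → Q)
    (A : Matrix (Fin m) (Fin n) (FreeGroup (Fin k) →₀ ℤ)) : Submodule ℝ (Q × Fin m → ℝ) where
  carrier := {v | ∀ (x : Q) (j : Fin n),
    ∑ i, (A i j).sum (fun w c => (c : ℝ) * v (FreeGroup.lift q w * x, i)) = 0}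
  zero_mem' := by
    intro x j
    simp
  add_mem' := by
    intro v w hv hw x j
    have h1 := hv x j
    have h2 := hw x j
    simp only [Pi.add_apply, mul_add, Finsupp.sum_add]
    rw [Finset.sum_add_distrib, h1, h2, add_zero]
  smul_mem' := by
    intro t v hv x j
    have h1 := hv x j
    simp only [Pi.smul_apply, smul_eq_mul]
    have e : ∀ i, (A i j).sum (fun w c => (c : ℝ) * (t * v (FreeGroup.lift q w * x, i))) =
        t * (A i j).sum (fun w c => (c : ℝ) * v (FreeGroup.lift q w * x, i)) := by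
      intro i
      rw [Finsupp.sum, Finsupp.sum, Finset.mul_sum]
      refine Finset.sum_congr rfl fun w _ => ?_
      ring
    simp only [e]
    rw [← Finset.mul_sum, h1, mul_zero]

/-- The normalized dimension of the kernel of `A` over the finite group `Q`. -/
def nullity {k m n : ℕ} {Q : Type} [Group Q] (q : Fin k → Q)
    (A : Matrix (Fin m) (Fin n) (FreeGroup (Fin k) →₀ ℤ)) : ℝ :=
  (Module.finrank ℝ (solutions q A) : ℝ) / Nat.card Q

open Pool.Agent Pool.Agent.H13.AA Pool.Agent.H13.SF Pool.Agent.H80R2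

variable {𝒬 : (Q : Type) → [Group Q] → Prop}

theorem qclass (h : ProductClosed 𝒬) : QClass 𝒬 := ⟨h.finite, h.product⟩

theorem nullity_eq {k m n : ℕ} {Q : Type} [Group Q] [Finite Q] (q : Fin k → Q)
    (A : Matrix (Fin m) (Fin n) (FreeGroup (Fin k) →₀ ℤ)) :
    nullity q A =
      (Module.finrank ℝ (K (fun w x => act (regp q) w x) A) : ℝ) / Nat.card Q := by
  have := Fintype.ofFinite Q
  rw [finrank_regp]
  rfl

/-! ### integral matrices -/

/-- clearing denominators -/
theorem clear {G : Type} [Group G] {m n : ℕ} (A : Matrix (Fin m) (Fin n) (G →₀ ℚ)) :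
    ∃ B : Matrix (Fin m) (Fin n) (G →₀ ℂ), (∀ i j g, B i j g ∈ AmenableAllOrNothing.ZZ) ∧
      kerDim (complex A) = kerDim B := by
  classical
  set N : ℕ := ∏ i, ∏ j, ∏ g ∈ (A i j).support, (A i j g).den with hN
  have hN0 : N ≠ 0 := by
    rw [hN]
    refine Finset.prod_ne_zero_iff.2 fun i _ => Finset.prod_ne_zero_iff.2 fun j _ =>
      Finset.prod_ne_zero_iff.2 fun g _ => (A i j g).den_nz
  have hdvd : ∀ i j, ∀ g ∈ (A i j).support, (A i j g).den ∣ N := by
    intro i j g hg
    refine dvd_trans ?_ (Finset.dvd_prod_of_mem _ (Finset.mem_univ i))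
    refine dvd_trans ?_ (Finset.dvd_prod_of_mem _ (Finset.mem_univ j))
    exact Finset.dvd_prod_of_mem (fun g => (A i j g).den) hg
  have hint : ∀ i j g, ∃ z : ℤ, (N : ℚ) * A i j g = z := by
    intro i j g
    by_cases hg : g ∈ (A i j).support
    · obtain ⟨c, hc⟩ := hdvd i j g hg
      refine ⟨c * (A i j g).num, ?_⟩
      rw [hc]
      push_cast
      have h1 := Rat.den_mul_eq_num (A i j g)
      rw [mul_comm ((A i j g).den : ℚ) c, mul_assoc, h1]
    · refine ⟨0, ?_⟩
      rw [Finsupp.notMem_support_iff.1 hg]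
      simp
  refine ⟨fun i j => (N : ℂ) • complex A i j, ?_, ?_⟩
  · intro i j g
    obtain ⟨z, hz⟩ := hint i j g
    rw [AmenableAllOrNothing.mem_ZZ]
    refine ⟨z, ?_⟩
    show (N : ℂ) * ((A i j g : ℚ) : ℂ) = z
    have : (((N : ℚ) * A i j g : ℚ) : ℂ) = ((z : ℚ) : ℂ) := by rw [hz]
    push_cast at this
    exact this
  · have hk : kernel (fun i j => (N : ℂ) • complex A i j) = kernel (complex A) := by
      ext x
      have e : ∀ (j : Fin n) (g : G), ∑ i : Fin m, (((N : ℂ) • complex A i j)).sum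
          (fun h c => x (i, g * h⁻¹) * c) =
          (N : ℂ) * ∑ i : Fin m, (complex A i j).sum (fun h c => x (i, g * h⁻¹) * c) := by
        intro j g
        rw [Finset.mul_sum]
        refine Finset.sum_congr rfl fun i _ => ?_
        rw [Finsupp.sum_smul_index (by intro h; rw [mul_zero]), Finsupp.sum, Finsupp.sum,
          Finset.mul_sum]
        refine Finset.sum_congr rfl fun h _ => ?_
        ring
      constructor
      · intro hx j g
        have h1 := hx j g
        rw [e] at h1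
        exact (mul_eq_zero.1 h1).resolve_left (by exact_mod_cast hN0)
      · intro hx j g
        rw [e, hx j g, mul_zero]
    unfold kerDim
    rw [hk]

theorem val_rat {G : Type} [Group G] {m n : ℕ} (A : Matrix (Fin m) (Fin n) (G →₀ ℚ)) :
    W656.VA.Val AmenableAllOrNothing.ZZ G (kerDim (complex A)) := by
  obtain ⟨B, hB, h⟩ := clear A
  rw [h]
  exact W656.VA.val_kerDim B hB

/-- integer coefficients of complex matrices -/
theorem exists_int {E : Type} [Group E] {r : ℝ}
    (h : W656.VA.Val AmenableAllOrNothing.ZZ E r) :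
    ∃ (m n : ℕ) (D : Matrix (Fin m) (Fin n) (E →₀ ℤ)), W656.VA.kerDim (cpl D) = r := by
  obtain ⟨m, n, B, hB, hBr⟩ := W656.VA.exists_kerDim h
  have hB' : ∀ i j g, ∃ z : ℤ, (z : ℂ) = B i j g := by
    intro i j g
    obtain ⟨z, hz⟩ := (AmenableAllOrNothing.mem_ZZ _).1 (hB i j g)
    exact ⟨z, hz.symm⟩
  choose c hc using hB'
  have hc0 : ∀ i j g, c i j g ≠ 0 → g ∈ (B i j).support := by
    intro i j g hg
    rw [Finsupp.mem_support_iff, ← hc]
    exact_mod_cast hg
  refine ⟨m, n, fun i j => Finsupp.onFinset (B i j).support (c i j) (hc0 i j), ?_⟩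
  have h2 : cpl (fun i j => Finsupp.onFinset (B i j).support (c i j) (hc0 i j)) = B := by
    funext i j
    ext g
    show (((c i j g : ℤ)) : ℂ) = B i j g
    exact hc i j g
  rw [h2, hBr]

/-- integer matrices as rational matrices -/
theorem complex_int {G : Type} {m n : ℕ} (D : Matrix (Fin m) (Fin n) (G →₀ ℤ)) :
    complex (fun i j => (D i j).mapRange (fun z : ℤ => (z : ℚ)) Int.cast_zero) = cpl D := by
  funext i j
  ext g
  show (((D i j g : ℤ) : ℚ) : ℂ) = ((D i j g : ℤ) : ℂ)
  push_cast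
  rfl

/-- lifts to the free group -/
theorem exists_lift {E : Type} [Group E] {k m n : ℕ} (π : FreeGroup (Fin k) →* E)
    (hπ : Function.Surjective π) (D : Matrix (Fin m) (Fin n) (E →₀ ℤ)) :
    ∃ A : Matrix (Fin m) (Fin n) (FreeGroup (Fin k) →₀ ℤ), push π A = D := by
  obtain ⟨s, hs⟩ := hπ.hasRightInverse
  refine ⟨fun i j => (D i j).mapDomain s, ?_⟩
  funext i j
  show ((D i j).mapDomain s).mapDomain π = D i j
  rw [← Finsupp.mapDomain_comp]
  have h2 : (π ∘ s : E → E) = id := funext hs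
  rw [h2, Finsupp.mapDomain_id]

theorem exists_marking {E : Type} [Group E] (hfg : Group.FG E) :
    ∃ (k : ℕ) (π : FreeGroup (Fin k) →* E), Function.Surjective π := by
  obtain ⟨S, hS⟩ := hfg.out
  obtain ⟨n, ⟨e⟩⟩ := Finite.exists_equiv_fin S
  refine ⟨n, FreeGroup.lift fun i => (e.symm i : E), ?_⟩
  rw [← MonoidHom.range_eq_top, eq_top_iff, ← hS, Subgroup.closure_le]
  intro x hx
  refine ⟨FreeGroup.of (e ⟨x, hx⟩), ?_⟩
  rw [FreeGroup.lift_apply_of, Equiv.symm_apply_apply]

/-! ### the trivial group -/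

theorem trivial_int {E : Type} [Group E] [Subsingleton E] {r : ℝ}
    (h : W656.VA.Val AmenableAllOrNothing.ZZ E r) : ∃ z : ℤ, r = z := by
  have h1 : AmenableAllOrNothing.Amenable E := by
    intro S ε hε
    refine ⟨{1}, Finset.singleton_nonempty _, ?_⟩
    have h2 : ({g : E | ∃ f ∈ ({1} : Finset E), ∃ s ∈ S, g = f * s}.ncard : ℝ) ≤ 1 := by
      have h3 := Set.ncard_le_card {g : E | ∃ f ∈ ({1} : Finset E), ∃ s ∈ S, g = f * s}
      have h4 : Nat.card E ≤ 1 := Finite.card_le_one_iff_subsingleton.2 inferInstance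
      exact_mod_cast h3.trans h4
    rw [Finset.card_singleton]
    push_cast
    linarith
  have hreg : Reg E := by
    intro α hα
    have h2 : BC.kerA (W656.VA.m1 α) = ⊥ := by
      rw [eq_bot_iff]
      intro x hx
      rw [Submodule.mem_bot]
      have h3 : α 1 ≠ 0 := by
        intro h0
        apply hα
        ext g
        rw [Subsingleton.elim g 1, h0]
        rfl
      have h4 : α = Finsupp.single 1 (α 1) := by
        ext g
        rw [Subsingleton.elim g 1, Finsupp.single_eq_same]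
      apply lp.ext
      funext ⟨i, g⟩
      have h5 := hx () g
      unfold BC.act W656.VA.m1 at h5
      rw [Fintype.sum_unique, h4, Finsupp.sum_single_index (by rw [zero_mul])] at h5
      have h6 := (mul_eq_zero.1 h5).resolve_left h3
      rw [mul_one] at h6
      exact h6
    rw [h2, W656.VA.vdim_bot]
  obtain ⟨m, n, B, hB, hBr⟩ := W656.VA.exists_kerDim h
  obtain ⟨z, hz⟩ := AmenableAllOrNothing.atiyah_of_reg h1 hreg AmenableAllOrNothing.ZZ m n B hB
  exact ⟨z, hBr.symm.trans hz⟩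

theorem infinite_of {E : Type} [Group E] (htf : TorsionFree E) (h : ¬ Subsingleton E) :
    Infinite E := by
  by_contra hfin
  rw [not_infinite_iff_finite] at hfin
  apply h
  refine ⟨fun a b => ?_⟩
  have h1 : ∀ g : E, g = 1 := fun g => htf g (Nat.card E) Nat.card_pos pow_card_eq_one'
  rw [h1 a, h1 b]

/-! ### numbers -/

/-- a set of real numbers closed under products and multiples with a gap near the integers -/
theorem int_of_gap {S : Set ℝ} (hmul : ∀ v ∈ S, ∀ w ∈ S, v * w ∈ S)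
    (hn : ∀ v ∈ S, ∀ n : ℕ, (n : ℝ) * v ∈ S) {ε : ℝ} (hε : 0 < ε)
    (h : ∀ v ∈ S, (∃ z : ℤ, v = z) ∨ ∀ z : ℤ, ε ≤ |v - z|) : ∀ v ∈ S, ∃ z : ℤ, v = z := by
  obtain ⟨N, hN⟩ := exists_nat_one_div_lt hε
  have h1 : ∀ w ∈ S, ∃ z : ℤ, ((N + 1).factorial : ℝ) * w = z := by
    intro w hw
    obtain ⟨j, k, hk, hkN, hjk⟩ := Real.exists_int_int_abs_mul_sub_le w (Nat.succ_pos N)
    have hk' : ((k.toNat : ℕ) : ℤ) = k := Int.toNat_of_nonneg hk.le
    have hk'' : ((k.toNat : ℕ) : ℝ) = k := by exact_mod_cast hk'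
    have h2 : (k : ℝ) * w ∈ S := by
      rw [← hk'']
      exact hn w hw _
    have h3 : ∃ z : ℤ, (k : ℝ) * w = z := by
      refine (h _ h2).resolve_right fun h4 => ?_
      have h5 := h4 j
      have h6 : 1 / (((N.succ : ℕ) : ℝ) + 1) ≤ 1 / ((N : ℝ) + 1) := by
        apply one_div_le_one_div_of_le (by positivity)
        push_cast
        linarith
      linarith
    obtain ⟨z, hz⟩ := h3
    have h4 : k.toNat ∣ (N + 1).factorial := by
      apply Nat.dvd_factorial
      · omega
      · have : k ≤ ((N + 1 : ℕ) : ℤ) := hkN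
        omega
    obtain ⟨c, hc⟩ := h4
    refine ⟨c * z, ?_⟩
    rw [hc]
    push_cast
    rw [← hz, hk'']
    ring
  intro v hv
  set c : ℕ := (N + 1).factorial with hcdef
  have hc0 : 0 < c := Nat.factorial_pos _
  have hpow : ∀ n : ℕ, v ^ (n + 1) ∈ S := by
    intro n
    induction n with
    | zero => rwa [zero_add, pow_one]
    | succ n ih => rw [pow_succ]; exact hmul _ ih _ hv
  obtain ⟨z, hz⟩ := h1 v hv
  set r : ℚ := (z : ℚ) / c with hr
  have hvr : v = (r : ℝ) := by
    rw [hr]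
    push_cast
    rw [eq_div_iff (by exact_mod_cast hc0.ne'), mul_comm]
    exact hz
  have h2 : ∀ n : ℕ, r.den ^ (n + 1) ∣ c := by
    intro n
    obtain ⟨y, hy⟩ := h1 _ (hpow n)
    rw [hvr] at hy
    have h3 : (c : ℚ) * r ^ (n + 1) = y := by exact_mod_cast hy
    have h4 : r ^ (n + 1) = (y : ℚ) / ((c : ℤ) : ℚ) := by
      rw [eq_div_iff (by exact_mod_cast hc0.ne'), mul_comm]
      exact_mod_cast h3
    have h5 := Rat.den_dvd y (c : ℤ)
    rw [Rat.divInt_eq_div, ← h4, Rat.den_pow] at h5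
    exact_mod_cast h5
  have h3 : r.den = 1 := by
    by_contra hne
    have h4 : 2 ≤ r.den := by
      have := r.den_pos
      omega
    have h5 := Nat.le_of_dvd hc0 (h2 c)
    have h6 : 2 ^ (c + 1) ≤ r.den ^ (c + 1) := Nat.pow_le_pow_left h4 _
    have h7 : c + 1 < 2 ^ (c + 1) := Nat.lt_two_pow_self
    omega
  refine ⟨r.num, ?_⟩
  rw [hvr]
  have h4 : (r : ℚ) = r.num := by
    conv_lhs => rw [← Rat.num_div_den r, h3]
    simp
  exact_mod_cast h4

/-- the values -/
def Vals (𝒬 : (Q : Type) → [Group Q] → Prop) : Set ℝ :=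
  {v | ∃ (H : Type) (_ : Group H), TorsionFree H ∧ LE 𝒬 H ∧
    W656.VA.Val AmenableAllOrNothing.ZZ H v}

theorem vals_mul (h𝒬 : ProductClosed 𝒬) : ∀ v ∈ Vals 𝒬, ∀ w ∈ Vals 𝒬, v * w ∈ Vals 𝒬 := by
  rintro v ⟨H, _, h1, h2, h3⟩ w ⟨H', _, h1', h2', h3'⟩
  exact ⟨H × H', inferInstance, AmenableAllOrNothing.tf_prod h1 h1', LE.prod (qclass h𝒬) h2 h2',
    W656.VA.val_mul h3 h3'⟩

theorem vals_nsmul : ∀ v ∈ Vals 𝒬, ∀ n : ℕ, (n : ℝ) * v ∈ Vals 𝒬 := by
  rintro v ⟨H, _, h1, h2, h3⟩ n
  exact ⟨H, inferInstance, h1, h2, W656.VA.val_nsmul h3 n⟩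

/-! ### the theorem -/

/-- finite groups -/
theorem productClosed_finite : ProductClosed (fun (Q : Type) [Group Q] => Finite Q) :=
  ⟨fun _ _ h => h, fun Q Q' _ _ h h' => by
    have := h
    have := h'
    exact inferInstanceAs (Finite (Q × Q'))⟩

/-- finite `p`-groups -/
theorem productClosed_pGroup (p : ℕ) :
    ProductClosed (fun (Q : Type) [Group Q] => Finite Q ∧ IsPGroup p Q) := by
  refine ⟨fun _ _ h => h.1, fun Q Q' _ _ h h' => ⟨?_, ?_⟩⟩
  · have := h.1
    have := h'.1
    exact inferInstanceAs (Finite (Q × Q'))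
  · intro g
    obtain ⟨a, ha⟩ := h.2 g.1
    obtain ⟨b, hb⟩ := h'.2 g.2
    refine ⟨a + b, Prod.ext ?_ ?_⟩
    · show g.1 ^ (p ^ (a + b)) = 1
      rw [pow_add, pow_mul, ha, one_pow]
    · show g.2 ^ (p ^ (a + b)) = 1
      rw [pow_add, mul_comm, pow_mul, hb, one_pow]

/-- **The Atiyah conjecture for torsion-free residually finite groups is a statement about finite
groups.** Let `𝒬` be a class of finite groups closed under products (for example all finite groups,
or the finite `p`-groups). Nontrivial groups which are residually in `𝒬` are locally embeddable into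
`𝒬`, and the following are equivalent.

1. For every torsion-free group `G` which is locally embeddable into `𝒬`, all kernels of rational
   matrices over `G` have integral von Neumann dimension.
2. There is `ε₀ > 0` such that no such dimension has distance in `(0, ε₀)` from an integer.
3. For every integral matrix `A` over the free group on `k` letters and every `ε > 0` there is `j`
   such that, for all groups `Q` in `𝒬` and all elements `q₁, …, q_k` of `Q` without torsion of
   length at most `j`, the normalized nullity of `A` over `Q` is `ε`-close to an integer.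
4. There is `ε₀ > 0` such that for every `A` and `δ > 0` there is `j` such that, for all such `Q` and
   `q`, the normalized nullity of `A` over `Q` is either `δ`-close to an integer or not `ε₀`-close to
   one.
-/
theorem result :
    ProductClosed (fun (Q : Type) [Group Q] => Finite Q) ∧
    (∀ p : ℕ, ProductClosed (fun (Q : Type) [Group Q] => Finite Q ∧ IsPGroup p Q)) ∧
    ∀ 𝒬 : (Q : Type) → [Group Q] → Prop, ProductClosed 𝒬 →
      (∀ (G : Type) [Group G], (∃ g : G, g ≠ 1) → Residually 𝒬 G → LocallyEmbeddable 𝒬 G) ∧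
      List.TFAE [
        ∀ (G : Type) [Group G], TorsionFree G → LocallyEmbeddable 𝒬 G →
          ∀ (m n : ℕ) (A : Matrix (Fin m) (Fin n) (G →₀ ℚ)), ∃ z : ℤ, kerDim (complex A) = z,
        ∃ ε₀ : ℝ, 0 < ε₀ ∧ ∀ (G : Type) [Group G], TorsionFree G → LocallyEmbeddable 𝒬 G →
          ∀ (m n : ℕ) (A : Matrix (Fin m) (Fin n) (G →₀ ℚ)),
            (∃ z : ℤ, kerDim (complex A) = z) ∨ ∀ z : ℤ, ε₀ ≤ |kerDim (complex A) - z|,
        ∀ (k m n : ℕ) (A : Matrix (Fin m) (Fin n) (FreeGroup (Fin k) →₀ ℤ)) (ε : ℝ), 0 < ε →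
          ∃ j : ℕ, ∀ (Q : Type) [Group Q], 𝒬 Q → ∀ q : Fin k → Q, NoShortTorsion j q →
            ∃ z : ℤ, |nullity q A - z| ≤ ε,
        ∃ ε₀ : ℝ, 0 < ε₀ ∧
          ∀ (k m n : ℕ) (A : Matrix (Fin m) (Fin n) (FreeGroup (Fin k) →₀ ℤ)) (δ : ℝ), 0 < δ →
            ∃ j : ℕ, ∀ (Q : Type) [Group Q], 𝒬 Q → ∀ q : Fin k → Q, NoShortTorsion j q →
              (∃ z : ℤ, |nullity q A - z| ≤ δ) ∨ ∀ z : ℤ, ε₀ ≤ |nullity q A - z|] := by
  refine ⟨productClosed_finite, productClosed_pGroup, fun 𝒬 h𝒬 => ⟨?_, ?_⟩⟩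
  · rintro G _ ⟨g, hg⟩ h
    obtain ⟨Q, _, hQ, -⟩ := h g hg
    exact LE.of_residually (qclass h𝒬) ⟨Q, inferInstance, hQ⟩ h
  tfae_have 1 → 3 := by
    intro h k m n A ε hε
    by_contra hcon
    push Not at hcon
    choose Q iQ hQ q hq hz using hcon
    have hq' : ∀ i, haveI := (qclass h𝒬).fin (Q i) (hQ i); GoodQ i (q i) := fun i => hq i
    obtain ⟨E, _, π, φ, hφ, htf, hLE, hl⟩ := le_limit (qclass h𝒬) Q hQ q hq'
    obtain ⟨z, hz'⟩ := h E htf hLE m n
      (fun i j => (push π A i j).mapRange (fun z : ℤ => (z : ℚ)) Int.cast_zero)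
    rw [complex_int] at hz'
    have h1 := hl m n A
    have h2 : ∀ i, (haveI := (qclass h𝒬).fin (Q (φ i)) (hQ (φ i));
        (Module.finrank ℝ (K (fun w x => act (regp (q (φ i))) w x) A) : ℝ) /
            Nat.card (Q (φ i))) = nullity (q (φ i)) A := by
      intro i
      have := (qclass h𝒬).fin (Q (φ i)) (hQ (φ i))
      exact (nullity_eq (q (φ i)) A).symm
    simp only [h2] at h1
    have h3 := FinitePermutations.dist_lim h1 (fun i z => hz (φ i) z) z
    have h4 : W656.VA.kerDim (cpl (push π A)) = z := hz'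
    rw [h4, sub_self, abs_zero] at h3
    linarith
  tfae_have 3 → 4 := fun h => ⟨1, one_pos, fun k m n A δ hδ => by
    obtain ⟨j, hj⟩ := h k m n A δ hδ
    exact ⟨j, fun Q _ hQ q hq => Or.inl (hj Q hQ q hq)⟩⟩
  tfae_have 4 → 2 := by
    rintro ⟨ε₀, hε₀, h⟩
    refine ⟨ε₀, hε₀, ?_⟩
    intro G _ hG hLE m n A
    by_contra hcon
    push Not at hcon
    obtain ⟨h1, z, hz⟩ := hcon
    have hv := val_rat A
    set v := kerDim (complex A) with hvdef
    obtain ⟨K', hfg, hv⟩ := Pool.Agent.TH25.AD.fg_val_sub hv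
    have htf : TorsionFree K' :=
      AmenableAllOrNothing.tf_sub K'.subtype K'.subtype_injective hG
    have hLE' : LE 𝒬 K' := LE.sub K'.subtype K'.subtype_injective hLE
    have hns : ¬ Subsingleton K' := by
      intro hs
      obtain ⟨y, hy⟩ := trivial_int hv
      exact h1 y hy
    have := infinite_of htf hns
    obtain ⟨k, π, hπ⟩ := exists_marking hfg
    obtain ⟨m', n', D, hD⟩ := exists_int hv
    obtain ⟨B, hB⟩ := exists_lift π hπ D
    obtain ⟨Q, iQ, hQ, q, h2, h3⟩ := le_seq (qclass h𝒬) hLE' htf π hπ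
    have h4 := h3 m' n' B
    rw [hB, hD] at h4
    have h5 : ∀ i, (haveI := (qclass h𝒬).fin (Q i) (hQ i);
        (Module.finrank ℝ (K (fun w x => act (regp (q i)) w x) B) : ℝ) /
            Nat.card (Q i)) = nullity (q i) B := by
      intro i
      have := (qclass h𝒬).fin (Q i) (hQ i)
      exact (nullity_eq (q i) B).symm
    simp only [h5] at h4
    obtain ⟨δ, hδ, h6⟩ := FinitePermutations.far_int h1
    obtain ⟨j, hj⟩ := h k m' n' B (δ / 2) (by linarith)
    obtain ⟨i, h7, h8, h9⟩ := ((h2 j).and ((Metric.tendsto_nhds.1 h4 (δ / 2) (by linarith)).and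
      (Metric.tendsto_nhds.1 h4 (ε₀ - |v - z|) (by linarith)))).exists
    rw [Real.dist_eq] at h8 h9
    rcases hj (Q i) (hQ i) (q i) h7 with ⟨y, hy⟩ | hy
    · have h10 := h6 y
      have h11 := abs_sub_le v (nullity (q i) B) y
      rw [abs_sub_comm v (nullity (q i) B)] at h11
      linarith
    · have h10 := hy z
      have h11 := abs_sub_le (nullity (q i) B) v z
      linarith
  tfae_have 2 → 1 := by
    rintro ⟨ε₀, hε₀, h⟩ G _ hG hLE m n A
    refine int_of_gap (S := Vals 𝒬) (vals_mul h𝒬) vals_nsmul hε₀ ?_ _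
      ⟨G, inferInstance, hG, hLE, val_rat A⟩
    rintro v ⟨H, _, h1, h2, h3⟩
    obtain ⟨m', n', D, hD⟩ := exists_int h3
    have h4 := h H h1 h2 m' n'
      (fun i j => (D i j).mapRange (fun z : ℤ => (z : ℚ)) Int.cast_zero)
    rw [complex_int] at h4
    have h5 : kerDim (cpl D) = v := hD
    rw [h5] at h4
    exact h4
  tfae_finish

end Pool.Agent.Results.MP_95030e_al.FiniteGroups
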